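import Pool.Agent.H89.KD.Stmts
import Pool.Agent.H33.KG.T1P

/-!
# Project KD, module TSF: elementary facts on test functions
-/

set_option autoImplicit false
set_option linter.unusedSectionVars false

open MeasureTheory Set Filter Topology
open scoped ContDiff

namespace Pool.Agent.H89.KD

open Pool.Agent.H84 Pool.Agent.H84.Sym Pool.Agent.H84.Sym.P2x Pool.Agent.H19.KL
open Pool.Agent.H73.KG Pool.Agent.H20.KH

section

variable {E : Type} [NormedAddCommGroup E] [InnerProductSpace ℝ E]
    [FiniteDimensional ℝ E] [MeasurableSpace E] [BorelSpace E]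

theorem TSF_D {u : E → ℝ} (hu : Tst u) (e : E) : Tst (D e u) := by
  refine ⟨?_, ?_⟩
  · have h : ContDiff ℝ ∞ (fderiv ℝ u) := hu.1.fderiv_right (by norm_cast)
    exact h.clm_apply contDiff_const
  · have h := hu.2.fderiv (𝕜 := ℝ)
    refine h.comp_left (g := fun L : E →L[ℝ] ℝ => L e) (by simp)

theorem TSF_GC {u : E → ℝ} (hu : Continuous u) (h2 : HasCompactSupport u) : GC u := by
  obtain ⟨A, hA⟩ := hu.bounded_above_of_compact_support h2
  exact ⟨hu, Gr.of_bdd fun x => by simpa using hA x⟩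

theorem TSF_diff {u : E → ℝ} (hu : Tst u) (x : E) : DifferentiableAt ℝ u x :=
  (hu.1.differentiable (by simp)) x

theorem TSF_Dadd {u v : E → ℝ} (hu : Tst u) (hv : Tst v) (e : E) :
    D e (fun x => u x + v x) = fun x => D e u x + D e v x := by
  funext x
  unfold D
  rw [fderiv_fun_add (TSF_diff hu x) (TSF_diff hv x)]
  rfl

theorem TSF_Dmul {u : E → ℝ} (hu : Tst u) (c : ℝ) (e : E) :
    D e (fun x => c * u x) = fun x => c * D e u x := by
  funext x
  unfold D
  rw [fderiv_const_mul (TSF_diff hu x)]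
  simp

theorem TSF_comm {u : E → ℝ} (hu : Tst u) (a b : E) : D a (D b u) = D b (D a u) := by
  funext x
  have h1 : ContDiff ℝ 1 (fderiv ℝ u) := hu.1.fderiv_right (by norm_cast)
  have h2 : ∀ e e' : E, D e (D e' u) x = fderiv ℝ (fderiv ℝ u) x e e' := by
    intro e e'
    unfold D
    have h3 : HasFDerivAt (fun y => fderiv ℝ u y e')
        ((ContinuousLinearMap.apply ℝ ℝ e').comp (fderiv ℝ (fderiv ℝ u) x)) x :=
      (ContinuousLinearMap.apply ℝ ℝ e').hasFDerivAt.comp x
        ((h1.differentiable (by norm_num)) x).hasFDerivAt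
    rw [h3.fderiv]
    rfl
  rw [h2, h2]
  have h4 : ContDiff ℝ 2 u := hu.1.of_le (by norm_cast)
  exact (h4.contDiffAt.isSymmSndFDerivAt (by simp)).eq a b

theorem TSF_thm : TSFStmt E := by
  intro U t hP ι _ b
  obtain ⟨⟨C, hU⟩, hp⟩ := id hP
  refine ⟨?_, ?_, ?_⟩
  · intro u hu
    have hL := T1P_LO b hU hu
    refine ⟨TSF_GC hu.1.continuous hu.2, hL, ?_, ?_, ?_⟩
    · intro c
      have h1 : XU b U u c = fun x => c - LO b U u x := by
        funext x
        unfold XU
        ring
      rw [h1]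
      exact (GC.const c).sub hL
    · intro e
      exact ⟨TSF_D hu e, TSF_GC (TSF_D hu e).1.continuous (TSF_D hu e).2⟩
    · intro i j
      exact TSF_comm hu _ _
  · intro u v hu hv
    refine ⟨⟨hu.1.add hv.1, hu.2.add hv.2⟩, ?_, fun e => TSF_Dadd hu hv e⟩
    funext x
    unfold LO
    simp only [TSF_Dadd hu hv, TSF_Dadd (TSF_D hu _) (TSF_D hv _), mul_add,
      Finset.sum_add_distrib]
    ring
  · intro c u hu
    refine ⟨⟨contDiff_const.mul hu.1, hu.2.mul_left⟩, ?_, fun e => TSF_Dmul hu c e⟩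
    funext x
    unfold LO
    simp only [TSF_Dmul hu, TSF_Dmul (TSF_D hu _), mul_sub, Finset.mul_sum]
    congr 1
    exact Finset.sum_congr rfl fun i _ => by ring

end

end Pool.Agent.H89.KD
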